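import Mathlib

set_option autoImplicit false

namespace Pool.Agent.Results.MP_c457a4_an.CcsDeltaSum

/-- The convex combination of the slices `S(f i, α i)` of the unit ball with weights `l i`. -/
def Ccs {𝕜 X : Type} [RCLike 𝕜] [NormedAddCommGroup X] [NormedSpace 𝕜 X] {n : ℕ}
    (l : Fin n → ℝ) (f : Fin n → StrongDual 𝕜 X) (α : Fin n → ℝ) : Set X :=
  {z | ∃ w : Fin n → X, (∀ i, ‖w i‖ ≤ 1 ∧ 1 - α i < RCLike.re (f i (w i))) ∧
    z = ∑ i, (l i : 𝕜) • w i}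

/-- `x` is a ccs Delta-point. -/
def CcsDelta (𝕜 : Type) {X : Type} [RCLike 𝕜] [NormedAddCommGroup X] [NormedSpace 𝕜 X]
    (x : X) : Prop :=
  ‖x‖ = 1 ∧ ∀ (n : ℕ) (l : Fin n → ℝ) (f : Fin n → StrongDual 𝕜 X) (α : Fin n → ℝ),
    (∀ i, 0 ≤ l i) → ∑ i, l i = 1 → (∀ i, ‖f i‖ = 1) → (∀ i, 0 < α i) → x ∈ Ccs l f α →
      IsLUB {d : ℝ | ∃ z ∈ Ccs l f α, d = ‖x - z‖} 2

section
variable {𝕜 X Z : Type} [RCLike 𝕜] [NormedAddCommGroup X] [NormedSpace 𝕜 X]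
  [NormedAddCommGroup Z] [NormedSpace 𝕜 Z]

theorem norm_le {n : ℕ} {l : Fin n → ℝ} {f : Fin n → StrongDual 𝕜 X} {α : Fin n → ℝ}
    (h0 : ∀ i, 0 ≤ l i) (h1 : ∑ i, l i = 1) {z : X} (hz : z ∈ Ccs l f α) : ‖z‖ ≤ 1 := by
  obtain ⟨w, hw, rfl⟩ := hz
  refine (norm_sum_le _ _).trans (h1 ▸ Finset.sum_le_sum fun i _ => ?_)
  rw [norm_smul, RCLike.norm_ofReal, abs_of_nonneg (h0 i)]
  exact mul_le_of_le_one_right (h0 i) (hw i).1

theorem key (P : Z →L[𝕜] X) (J : X →L[𝕜] Z) (hP : ∀ z, ‖P z‖ ≤ ‖z‖) (hPJ : ∀ x, P (J x) = x)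
    (hJ : ∀ z x, ‖z‖ ≤ 1 → ‖x‖ ≤ 1 → ‖z + J (x - P z)‖ ≤ 1) (p : Z) (hp : ‖p‖ = 1)
    (hx : CcsDelta 𝕜 (P p)) : CcsDelta 𝕜 p := by
  refine ⟨hp, fun n l F α l0 l1 F1 α0 hm => ⟨?_, fun b hb => ?_⟩⟩
  · rintro _ ⟨z, hz, rfl⟩
    linarith [norm_sub_le p z, norm_le l0 l1 hz]
  obtain ⟨w, hw, hpw⟩ := hm
  obtain ⟨f0, hf0, -⟩ := exists_dual_vector 𝕜 (P p) (by rw [hx.1]; exact one_ne_zero)
  have h1 : ∀ i, ∃ (g : StrongDual 𝕜 X) (β : ℝ), ‖g‖ = 1 ∧ 0 < β ∧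
      1 - β < RCLike.re (g (P (w i))) ∧ ∀ u, ‖u‖ ≤ 1 → 1 - β < RCLike.re (g u) →
        1 - α i < RCLike.re (F i (w i + J (u - P (w i)))) := by
    intro i
    have hre : ∀ (g : StrongDual 𝕜 X) (u : X), ‖g‖ = 1 → ‖u‖ ≤ 1 → |RCLike.re (g u)| ≤ 1 :=
      fun g u hg hu => (RCLike.abs_re_le_norm _).trans ((g.le_opNorm u).trans (by rw [hg]; linarith))
    have hw1 := (hP (w i)).trans (hw i).1
    by_cases h : (F i).comp J = 0
    · refine ⟨f0, 3, hf0, by norm_num, by linarith [(abs_le.mp (hre f0 _ hf0 hw1)).1],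
        fun u _ _ => ?_⟩
      have : F i (J (u - P (w i))) = 0 := DFunLike.congr_fun h _
      rw [map_add, this, add_zero]; exact (hw i).2
    have c0 := norm_pos_iff.mpr h
    set c := ‖(F i).comp J‖ with hc
    have hg : ‖((c⁻¹ : ℝ) : 𝕜) • (F i).comp J‖ = 1 := by
      rw [norm_smul, RCLike.norm_ofReal, abs_of_pos (inv_pos.mpr c0), inv_mul_cancel₀ c0.ne']
    have hη := mul_pos (inv_pos.mpr c0) (sub_pos.mpr (hw i).2)
    refine ⟨_, 1 - RCLike.re ((((c⁻¹ : ℝ) : 𝕜) • (F i).comp J) (P (w i))) +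
      c⁻¹ * (RCLike.re (F i (w i)) - (1 - α i)), hg, by linarith [(abs_le.mp (hre _ _ hg hw1)).2],
      by linarith, fun u _ hu => ?_⟩
    simp only [ContinuousLinearMap.smul_apply, ContinuousLinearMap.comp_apply, smul_eq_mul,
      RCLike.re_ofReal_mul] at hu
    simp only [map_add, map_sub]
    have := lt_of_mul_lt_mul_left (a := c⁻¹) (b := RCLike.re (F i (J (P (w i)))) -
      (RCLike.re (F i (w i)) - (1 - α i))) (c := RCLike.re (F i (J u))) (by linarith)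
      (inv_pos.mpr c0).le
    linarith
  choose g β g1 β0 g2 g3 using h1
  have e : ∀ v : Fin n → Z, P (∑ i, (l i : 𝕜) • v i) = ∑ i, (l i : 𝕜) • P (v i) := fun v => by
    simp only [map_sum, map_smul]
  refine (hx.2 n l g β l0 l1 g1 β0 ⟨fun i => P (w i), fun i =>
    ⟨(hP _).trans (hw i).1, g2 i⟩, by rw [hpw, e]⟩).2 ?_
  rintro _ ⟨_, ⟨u, hu, rfl⟩, rfl⟩
  refine le_trans ?_ (hb ⟨_, ⟨fun i => w i + J (u i - P (w i)), fun i =>
    ⟨hJ _ _ (hw i).1 (hu i).1, g3 i _ (hu i).1 (hu i).2⟩, rfl⟩, rfl⟩)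
  refine le_trans (le_of_eq ?_) (hP _)
  simp only [map_sub, e, map_add, hPJ, add_sub_cancel]

end

theorem result (𝕜 X Y : Type) [RCLike 𝕜] [NormedAddCommGroup X] [NormedSpace 𝕜 X]
    [CompleteSpace X] [NormedAddCommGroup Y] [NormedSpace 𝕜 Y] [CompleteSpace Y] (x : X) (y : Y)
    (hx : CcsDelta 𝕜 x) (hy : CcsDelta 𝕜 y) (a b : ℝ) (ha : a ∈ Set.Icc (0 : ℝ) 1)
    (hb : b ∈ Set.Icc (0 : ℝ) 1) (hab : max a b = 1) :
    CcsDelta 𝕜 (((a : 𝕜) • x, (b : 𝕜) • y) : X × Y) := by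
  have hn : ‖(((a : 𝕜) • x, (b : 𝕜) • y) : X × Y)‖ = 1 := by
    rw [Prod.norm_mk, norm_smul, norm_smul, hx.1, hy.1, RCLike.norm_ofReal, RCLike.norm_ofReal,
      abs_of_nonneg ha.1, abs_of_nonneg hb.1, mul_one, mul_one, hab]
  rcases max_choice a b with h | h
  · refine key (ContinuousLinearMap.fst 𝕜 X Y) (ContinuousLinearMap.inl 𝕜 X Y) norm_fst_le
      (fun _ => rfl) (fun z u hz hu => ?_) _ hn (by simpa [h.symm.trans hab] using hx)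
    simpa [Prod.norm_def, hu] using (norm_snd_le z).trans hz
  · refine key (ContinuousLinearMap.snd 𝕜 X Y) (ContinuousLinearMap.inr 𝕜 X Y) norm_snd_le
      (fun _ => rfl) (fun z u hz hu => ?_) _ hn (by simpa [h.symm.trans hab] using hy)
    simpa [Prod.norm_def, hu] using (norm_fst_le z).trans hz

end Pool.Agent.Results.MP_c457a4_an.CcsDeltaSum
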